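import Mathlib

set_option autoImplicit false

namespace Pool.Agent.H.MP_fd2cdc_co

open Cardinal Order

/-- a regressive regular-valued assignment with small initial fibres. -/
def Gd {W : Type} (lam : W → Cardinal.{0}) (X : Set W) (μ : Cardinal.{0}) : Prop :=
  ∃ g : W → Cardinal.{0}, (∀ w ∈ X, (g w).IsRegular ∧ μ < g w ∧ g w ≤ lam w) ∧
    ∀ t : Cardinal.{0}, t.IsRegular → #{w | w ∈ X ∧ g w < t} < t

variable {W : Type} {lam : W → Cardinal.{0}}

theorem Gd.mono {X Y : Set W} {μ μ' : Cardinal.{0}} (h : Gd lam Y μ') (hX : X ⊆ Y)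
    (hμ : μ ≤ μ') : Gd lam X μ := by
  obtain ⟨g, h1, h2⟩ := h
  refine ⟨g, fun w hw => ⟨(h1 w (hX hw)).1, hμ.trans_lt (h1 w (hX hw)).2.1, (h1 w (hX hw)).2.2⟩,
    fun t ht => lt_of_le_of_lt (mk_le_mk_of_subset ?_) (h2 t ht)⟩
  exact fun w hw => ⟨hX hw.1, hw.2⟩

theorem mk_lt_of_empty {X : Set W} {t : Cardinal.{0}} (ht : t.IsRegular) (h : ∀ w, w ∉ X) :
    #X < t := by
  rw [Set.eq_empty_of_forall_notMem h, mk_emptyCollection]
  exact ht.pos

theorem Gd.iUnion {J : Type} {μ : Cardinal.{0}} (hJ : #J ≤ μ) {X : J → Set W}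
    (h : ∀ j, Gd lam (X j) μ) : Gd lam (⋃ j, X j) μ := by
  classical
  choose g h1 h2 using h
  let G : W → Cardinal.{0} := fun w => if hw : ∃ j, w ∈ X j then g hw.choose w else 0
  have hG : ∀ w ∈ ⋃ j, X j, ∃ j, w ∈ X j ∧ G w = g j w := by
    intro w hw
    have hw' : ∃ j, w ∈ X j := Set.mem_iUnion.mp hw
    exact ⟨hw'.choose, hw'.choose_spec, dif_pos hw'⟩
  refine ⟨G, fun w hw => ?_, fun t ht => ?_⟩
  · obtain ⟨j, h3, h4⟩ := hG w hw
    rw [h4]; exact h1 j w h3
  · by_cases hμ : μ < t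
    · refine lt_of_le_of_lt (mk_le_mk_of_subset (t := ⋃ j, {w | w ∈ X j ∧ g j w < t}) ?_) ?_
      · intro w hw
        obtain ⟨j, h3, h4⟩ := hG w hw.1
        exact Set.mem_iUnion.mpr ⟨j, h3, h4 ▸ hw.2⟩
      · exact (card_iUnion_lt_iff_forall_of_isRegular ht (hJ.trans_lt hμ)).mpr (fun j => h2 j t ht)
    · apply mk_lt_of_empty ht
      intro w hw
      obtain ⟨j, h3, h4⟩ := hG w hw.1
      exact hμ ((h1 j w h3).2.1.trans (h4 ▸ hw.2))

theorem Gd.union {μ : Cardinal.{0}} (hμ : ℵ₀ ≤ μ) {X Y : Set W} (h1 : Gd lam X μ)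
    (h2 : Gd lam Y μ) : Gd lam (X ∪ Y) μ := by
  rw [Set.union_eq_iUnion]
  refine Gd.iUnion (mk_le_aleph0.trans hμ) ?_
  rintro (_ | _)
  · exact h2
  · exact h1

theorem Gd.const {μ c : Cardinal.{0}} (hc : ℵ₀ ≤ c) (hμ : μ ≤ c) {X : Set W} (h1 : #X ≤ c)
    (h2 : ∀ w ∈ X, c < lam w) : Gd lam X μ := by
  refine ⟨fun _ => succ c, fun w hw => ⟨isRegular_succ hc, hμ.trans_lt (lt_succ c),
    succ_le_of_lt (h2 w hw)⟩, fun t ht => ?_⟩
  by_cases h : succ c < t
  · exact lt_of_le_of_lt ((mk_le_mk_of_subset (fun w hw => hw.1)).trans h1) ((lt_succ c).trans h)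
  · exact mk_lt_of_empty ht (fun w hw => h hw.2)

theorem Gd.lim {μ l : Cardinal.{0}} (hμ : ℵ₀ ≤ μ) {J : Type} (hJ : #J ≤ μ) (f : J → Cardinal.{0})
    (hf : ∀ j, μ ≤ f j ∧ f j < l) (hl : l ≤ iSup f) {X : Set W} (h1 : #X ≤ l)
    (h2 : ∀ w ∈ X, lam w = l) : Gd lam X μ := by
  have h3 : #X ≤ #(Σ j, (f j).out) := by
    rw [mk_sigma]
    simp only [mk_out]
    exact h1.trans (hl.trans (iSup_le_sum f))
  obtain ⟨e⟩ := h3
  refine (Gd.iUnion hJ (X := fun j => Subtype.val '' {x : X | (e x).1 = j}) (fun j => ?_)).mono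
    (fun w hw => Set.mem_iUnion.mpr ⟨_, ⟨w, hw⟩, rfl, rfl⟩) le_rfl
  refine Gd.const (hμ.trans (hf j).1) (hf j).1 (mk_image_le.trans ?_) ?_
  · have : #{x : X | (e x).1 = j} ≤ #(Set.range (fun b : (f j).out => (⟨j, b⟩ : Σ j, (f j).out))) := by
      refine mk_le_of_injective (f := fun x => ⟨e x.1, ?_⟩) ?_
      · have h := x.2
        rcases hx : e x.1 with ⟨a, b⟩
        simp only [Set.mem_ofPred_eq, hx] at h
        subst h
        exact ⟨b, rfl⟩
      · intro x y hxy
        exact Subtype.ext (e.injective (congrArg Subtype.val hxy))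
    exact this.trans (mk_range_le.trans (mk_out _).le)
  · rintro _ ⟨x, -, rfl⟩
    rw [h2 x.1 x.2]; exact (hf j).2

theorem sing {ν : Cardinal.{0}} (h : ν.IsSingular) :
    ∃ (J : Type) (f : J → Cardinal.{0}), #J < ν ∧ (∀ j, f j < ν) ∧ ∀ c < ν, ∃ j, c ≤ f j := by
  obtain ⟨J, g, h1, h2⟩ := Ordinal.exists_lsub_cof ν.ord
  refine ⟨J, fun j => (g j).card, h2 ▸ h.cof_ord_lt, fun j => ?_, fun c hc => ?_⟩
  · rw [← lt_ord, ← h1]; exact Ordinal.lt_lsub g j
  · have : c.ord < Ordinal.lsub g := by rw [h1]; exact ord_lt_ord.mpr hc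
    obtain ⟨j, hj⟩ := Ordinal.lt_lsub_iff.mp this
    exact ⟨j, by simpa using Ordinal.card_le_card hj⟩

theorem assign {s : Cardinal.{0}} (hs : ℵ₀ ≤ s)
    (H : ∀ t : Cardinal.{0}, t.IsRegular → s < t → #{w | lam w < t} < t) (ν : Cardinal.{0}) :
    ∀ μ, s ≤ μ → Gd lam {w | μ < lam w ∧ lam w ≤ ν} μ := by
  induction ν using WellFoundedLT.induction with
  | _ ν ih =>
  intro μ hμ
  have hμ0 := hs.trans hμ
  by_cases hμν : μ < ν
  swap
  · exact ⟨fun _ => 0, fun w hw => absurd (hw.1.trans_le hw.2) hμν,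
      fun t ht => mk_lt_of_empty ht (fun w hw => hμν (hw.1.1.trans_le hw.1.2))⟩
  rcases isRegular_or_isSingular (hμ0.trans hμν.le) with hν | hν
  · have h1 := H ν hν (hμ.trans_lt hμν)
    have h2 : (⨆ w : {w | lam w < ν}, lam w) < ν := iSup_lt_of_isRegular hν h1 (fun w => w.2)
    have h3 : Gd lam {w | lam w = ν} μ := by
      refine ⟨fun _ => ν, fun w hw => ⟨hν, hμν, hw.ge⟩, fun t ht => ?_⟩
      by_cases h : ν < t
      · exact lt_of_le_of_lt (mk_le_mk_of_subset (fun w hw => (hw.1.trans_lt h : lam w < t)))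
          (H t ht (hμ.trans_lt (hμν.trans h)))
      · exact mk_lt_of_empty ht (fun w hw => h hw.2)
    refine ((ih _ h2 μ hμ).union hμ0 h3).mono (fun w hw => ?_) le_rfl
    rcases hw.2.lt_or_eq with h | h
    · exact Or.inl ⟨hw.1, le_ciSup (f := fun w : {w | lam w < ν} => lam w)
        bddAbove_of_small ⟨w, h⟩⟩
    · exact Or.inr h
  · obtain ⟨J, f0, hJ, hf0, hcof⟩ := sing hν
    let m := max μ #J
    have hm : m < ν := max_lt hμν hJ
    have hm0 : ℵ₀ ≤ m := hμ0.trans (le_max_left _ _)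
    have hsm : s ≤ m := hμ.trans (le_max_left _ _)
    let f : J → Cardinal.{0} := fun j => max (f0 j) m
    have hf1 : ∀ j, m ≤ f j := fun j => le_max_right _ _
    have hf2 : ∀ j, f j < ν := fun j => max_lt (hf0 j) hm
    let sp : Cardinal.{0} → Cardinal.{0} := fun l => ⨆ j : {j // f j < l}, f j
    have hlim : ∀ l, Gd lam {w | lam w = l ∧ m < l ∧ l ≤ sp l} m := by
      intro l
      by_cases h : m < l ∧ l ≤ sp l
      · refine Gd.lim hm0 ((mk_subtype_le _).trans (le_max_right _ _))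
          (fun j : {j // f j < l} => f j) (fun j => ⟨hf1 j, j.2⟩) h.2 ?_ (fun w hw => hw.1)
        have := H (succ l) (isRegular_succ (hm0.trans h.1.le))
          ((hsm.trans h.1.le).trans_lt (lt_succ l))
        exact (mk_le_mk_of_subset (fun w hw => (hw.1.trans_lt (lt_succ l) : lam w < succ l))).trans
          (lt_succ_iff.mp this)
      · exact ⟨fun _ => 0, fun w hw => absurd hw.2 h,
          fun t ht => mk_lt_of_empty ht (fun w hw => h hw.1.2)⟩
    have hJm : #J ≤ m := le_max_right _ _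
    have p1 := ih m hm μ hμ
    have p2 := Gd.iUnion hJm (fun j => hlim (sp (f j)))
    have p3 := Gd.iUnion hJm (fun j => (ih (f j) (hf2 j) (max m (sp (f j)))
      (hsm.trans (le_max_left _ _))).mono subset_rfl (le_max_left _ _))
    refine (p1.union hμ0 ((((hlim ν).union hm0 p2).union hm0 p3).mono subset_rfl
      (le_max_left _ _))).mono (fun w hw => ?_) le_rfl
    by_cases h1 : lam w ≤ m
    · exact Or.inl ⟨hw.1, h1⟩
    right
    push Not at h1
    rcases hw.2.lt_or_eq with h | h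
    · have hex : ∃ j, lam w ≤ f j := by
        obtain ⟨j, hj⟩ := hcof _ h
        exact ⟨j, hj.trans (le_max_left _ _)⟩
      obtain ⟨j, hj, hmin⟩ := (InvImage.wf f (wellFounded_lt (α := Cardinal.{0}))).has_min
        {j | lam w ≤ f j} hex
      have he : sp (f j) = sp (lam w) := by
        have : (fun i => f i < f j) = (fun i => f i < lam w) := by
          ext i
          constructor
          · intro h3
            by_contra h4
            exact hmin i (not_lt.mp h4) h3
          · intro h3; exact h3.trans_le hj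
        show (⨆ i : {i // (fun i => f i < f j) i}, f i) = ⨆ i : {i // (fun i => f i < lam w) i}, f i
        rw [this]
      by_cases h2 : lam w ≤ sp (lam w)
      · left; right
        have h3 : sp (lam w) = lam w := le_antisymm (ciSup_le' (fun i => i.2.le)) h2
        refine Set.mem_iUnion.mpr ⟨j, ?_⟩
        rw [he, h3]
        exact ⟨rfl, h1, h2⟩
      · right
        exact Set.mem_iUnion.mpr ⟨j, max_lt h1 (he ▸ not_le.mp h2), hj⟩
    · left; left
      refine ⟨h, hm, ?_⟩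
      by_contra h3
      push Not at h3
      obtain ⟨j, hj⟩ := hcof _ (hν.isSuccLimit.succ_lt h3)
      have h4 : f j ≤ sp ν := le_ciSup (f := fun j : {j // f j < ν} => f j)
        bddAbove_of_small ⟨j, hf2 j⟩
      exact absurd (hj.trans ((le_max_left _ _).trans h4)) (not_le.mpr (lt_succ _))

theorem order_lemma {I : Type} (lvl : I → Cardinal.{0}) (h : ∀ t, #{i | lvl i = t} ≤ t) :
    ∃ o : I → Ordinal.{0}, (∀ i j, lvl i = lvl j → o i = o j → i = j) ∧
      ∀ i, #{j | lvl j = lvl i ∧ o j < o i} < lvl i := by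
  have : ∀ t : Cardinal.{0}, ∃ o : I → Ordinal.{0}, (∀ i j, lvl i = t → lvl j = t → o i = o j → i = j) ∧
      ∀ i, lvl i = t → #{j | lvl j = t ∧ o j < o i} < t := by
    intro t
    classical
    obtain ⟨r, hr, hr'⟩ := exists_ord_eq {i | lvl i = t}
    refine ⟨fun i => if hi : lvl i = t then Ordinal.typein r ⟨i, hi⟩ else 0, ?_, ?_⟩
    · intro i j hi hj e
      simp only [dif_pos hi, dif_pos hj] at e
      exact congrArg Subtype.val ((Ordinal.typein r).injective e)
    · intro i hi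
      have h1 := (card_typein_lt (r := r) ⟨i, hi⟩ hr').trans_le (h t)
      refine lt_of_le_of_lt ?_ h1
      rw [Ordinal.card_typein]
      refine mk_le_of_injective (f := fun x => ⟨⟨x.1, x.2.1⟩, ?_⟩) ?_
      · have h2 := x.2.2
        simp only [dif_pos hi, dif_pos x.2.1] at h2
        exact (Ordinal.typein_lt_typein r).mp h2
      · intro x y hxy
        exact Subtype.ext (congrArg (fun z => z.1.1) hxy)
  choose o h1 h2 using this
  refine ⟨fun i => o (lvl i) i, fun i j hij e => h1 (lvl i) i j rfl hij.symm ?_, fun i => ?_⟩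
  · have e' : o (lvl i) i = o (lvl j) j := e
    rw [e', hij]
  · refine lt_of_le_of_lt (mk_le_mk_of_subset ?_) (h2 (lvl i) i rfl)
    intro j hj
    have h3 : o (lvl j) j < o (lvl i) i := hj.2
    exact ⟨hj.1, by rwa [hj.1] at h3⟩

theorem rec_choice {I P : Type} [Nonempty P] (r : I → I → Prop) (hr : WellFounded r)
    (R : I → Set P → P → Prop)
    (h : ∀ (i : I) (h : I → P), (∀ j, r j i → R j (h '' {k | r k j}) (h j)) →
      ∃ x, R i (h '' {k | r k i}) x) :
    ∃ h : I → P, ∀ i, R i (h '' {k | r k i}) (h i) := by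
  classical
  let F : ∀ i, (∀ j, r j i → P) → P := fun i p =>
    Classical.epsilon (R i {x | ∃ j, ∃ hj : r j i, p j hj = x})
  let g : I → P := hr.fix F
  have hg : ∀ i, g i = Classical.epsilon (R i (g '' {k | r k i})) := by
    intro i
    have : g i = F i (fun j _ => g j) := hr.fix_eq F i
    rw [this]
    show Classical.epsilon _ = _
    congr 2
    ext x
    simp
  refine ⟨g, fun i => ?_⟩
  induction i using hr.induction with
  | _ i ih =>
    rw [hg i]
    exact Classical.epsilon_spec (h i g ih)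

end Pool.Agent.H.MP_fd2cdc_co
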